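import Pool.Agent.V5helper23.KP.EH
import Pool.Agent.V5helper23.KP.Fam

/-!
# The conjecture of Elliott and Halberstam for the residues in ALL progressions with almost all differences

A maximal theorem (of the type of Kakeya) for the residues: up to the level `X ^ (1 - o(1))`, for almost all
differences `u` EVERY arithmetic progression with the difference `u`, even of a length which is only a power of `log X`,
consists of good residues, up to few terms; and the sum over all moduli of the absolute values of the errors, averaged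
over the residues `a(u) + b(w) + u w` with ARBITRARY functions `a` and `b`, is small.

Definitions used:
* `Pool.Agent.V5helper23.KP.Long`, `Pool.Agent.V5helper23.KP.Short`: the two kinds of families of patterns;
* `Pool.Agent.H373R2.T7.energy p n r`: the additive energy of order `p` of `r 1, ..., r n`: the number of solutions of
  `r (m 1) + ... + r (m p) = r (m' 1) + ... + r (m' p)`;
* from Mathlib: `ArithmeticFunction.vonMangoldt`: the function `Λ`; `Nat.totient`: Euler's function.

The proof: by the inequality of Cauchy and Schwarz the exponential sum over the numbers `a(u) + b(w) + u w` is large only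
near few rational numbers with small denominators, whatever `a` and `b` are
(`Pool.Agent.V5helper23.KP.char_near`, `Pool.Agent.V5helper23.KP.pat_tlaw`); this is combined with the dispersion
argument of the starting files (`Pool.Agent.Y885.tl_levels`).
-/

set_option autoImplicit false

namespace Pool.Agent.Results.MP_a78e8f_nt.LineFamilies

open Finset
open Pool.Agent.V5helper23.KP (Long Short)

/-- `ψ(x; q, a) - x / φ(q)`, where `ψ(x; q, a)` is the sum of `Λ(n)` over the `1 ≤ n ≤ x` with `n ≡ a (mod q)`. -/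
noncomputable def E (x q : ℕ) (a : ℤ) : ℝ :=
  ∑ n ∈ (Icc 1 x).filter (fun n : ℕ => (n : ℤ) ≡ a [ZMOD q]), ArithmeticFunction.vonMangoldt n -
    (x : ℝ) / Nat.totient q

/-- `τ(q)`, the number of the divisors of `q` -/
noncomputable def τ (q : ℕ) : ℝ := q.divisors.card

/-- The sum of `lam(q) (ψ(x(q); q, a) - x(q) / φ(q))` over the moduli `q ≤ Q` coprime to `a`. -/
noncomputable def weighted (lam : ℕ → ℝ) (x : ℕ → ℕ) (Q : ℕ) (a : ℤ) : ℝ :=
  ∑ q ∈ (Icc 1 Q).filter (fun q : ℕ => Int.gcd a q = 1), lam q * E (x q) q a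

/-- The residue `a` is bad: it is positive, and the weighted sum of the errors over the moduli `q ≤ Q` is larger than
`X / log ^ U X` in absolute value, for the heights `x(q)` or for some constant height `y ≤ X`. -/
def Bad (U X Q : ℕ) (lam : ℕ → ℝ) (x : ℕ → ℕ) (a : ℤ) : Prop :=
  0 < a ∧ ((X : ℝ) / Real.log X ^ U < |weighted lam x Q a| ∨
    ∃ y ≤ X, (X : ℝ) / Real.log X ^ U < |weighted lam (fun _ => y) Q a|)

open Classical in
/-- The number of the `1 ≤ m ≤ n` for which there is ANY integer `a` such that the pattern `a + b(w) + r(m) w`, `w ∈ S`,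
lies in `[-X, X]` and has more than `#S / log ^ U X` bad members. -/
noncomputable def exceptions (U X Q n : ℕ) (lam : ℕ → ℝ) (x : ℕ → ℕ) (b : ℤ → ℤ) (r : ℕ → ℤ) (S : Finset ℤ) : ℕ :=
  ((Icc 1 n).filter (fun m => ∃ a : ℤ, (∀ w ∈ S, |a + b w + r m * w| ≤ X) ∧
    (S.card : ℝ) / Real.log X ^ U < (S.filter (fun w => Bad U X Q lam x (a + b w + r m * w))).card)).card

/-- For the modulus `q` and the height `x`: the sum of `g(m, w) (ψ(x; q, c) - x / φ(q))` over the pairs `(m, w)`,
`1 ≤ m ≤ n`, `w ∈ S`, for which the residue `c = a(m) + b(w) + r(m) w` is positive and coprime to `q`. -/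
noncomputable def total (n : ℕ) (a : ℕ → ℤ) (b : ℤ → ℤ) (r : ℕ → ℤ) (S : Finset ℤ) (g : ℕ → ℤ → ℝ) (x q : ℕ) : ℝ :=
  ∑ ω ∈ (Icc 1 n ×ˢ S).filter (fun ω => 0 < a ω.1 + b ω.2 + r ω.1 * ω.2 ∧ Int.gcd (a ω.1 + b ω.2 + r ω.1 * ω.2) q = 1),
    g ω.1 ω.2 * E x q (a ω.1 + b ω.2 + r ω.1 * ω.2)

theorem gcd_iff (a : ℤ) (ha : 0 < a) (q : ℕ) : Int.gcd a q = 1 ↔ a.toNat.Coprime q := by
  obtain ⟨b, rfl⟩ := Int.eq_ofNat_of_zero_le ha.le
  rw [Int.gcd_natCast_natCast, Int.toNat_natCast, Nat.coprime_iff_gcd_eq_one]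

theorem E_eq (x q : ℕ) (a : ℤ) (ha : 0 < a) : E x q a = Pool.Agent.V5helper23.KP.Ee x q a.toNat := by
  obtain ⟨b, rfl⟩ := Int.eq_ofNat_of_zero_le ha.le
  unfold E Pool.Agent.V5helper23.KP.Ee Pool.Agent.W93.LV.Fu
  rw [Int.toNat_natCast]
  congr 1
  apply sum_congr _ (fun _ _ => rfl)
  ext n
  simp only [mem_filter, Int.natCast_modEq_iff]

theorem weighted_eq (lam : ℕ → ℝ) (x : ℕ → ℕ) (Q : ℕ) (a : ℤ) (ha : 0 < a) :
    weighted lam x Q a = Pool.Agent.TH212.EH.WW lam x Q a.toNat := by
  unfold weighted Pool.Agent.TH212.EH.WW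
  apply sum_congr
  · ext q
    simp only [mem_filter, gcd_iff a ha q]
  · intro q _
    rw [E_eq _ _ _ ha]
    rfl

theorem weighted_const (lam : ℕ → ℝ) (y : ℕ) (Q : ℕ) (a : ℤ) (ha : 0 < a) :
    weighted lam (fun _ => y) Q a = Pool.Agent.TH212.EH.W lam Q y a.toNat := weighted_eq lam (fun _ => y) Q a ha

theorem total_eq (n : ℕ) (a : ℕ → ℤ) (b : ℤ → ℤ) (r : ℕ → ℤ) (S : Finset ℤ) (g : ℕ → ℤ → ℝ) (x q : ℕ) : total n a b r S g x q =
    ∑ ω ∈ (Icc 1 n ×ˢ S).filter (fun ω => 0 < a ω.1 + b ω.2 + r ω.1 * ω.2 ∧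
        (a ω.1 + b ω.2 + r ω.1 * ω.2).toNat.Coprime q), g ω.1 ω.2 * Pool.Agent.V5helper23.KP.Ee x q (a ω.1 + b ω.2 + r ω.1 * ω.2).toNat := by
  unfold total
  apply sum_congr
  · ext ω
    simp only [mem_filter]
    constructor
    · rintro ⟨h0, h1, h2⟩
      exact ⟨h0, h1, (gcd_iff _ h1 q).1 h2⟩
    · rintro ⟨h0, h1, h2⟩
      exact ⟨h0, h1, (gcd_iff _ h1 q).2 h2⟩
  · intro ω hω
    rw [E_eq _ _ _ (mem_filter.1 hω).2.1]

/-- Let `T` and `U` be fixed. There is a constant `B`, and for all `C` and `p` there are constants `B'` and `D`, such that the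
following holds for every large `X` and every `Q ≤ X / exp (D (log log X) ^ 2)`; thus `Q = X ^ (1 - o(1))`.

Consider the patterns `a + b(w) + r(m) w`, `w ∈ S`, for `1 ≤ m ≤ n`, where the translation `a` and the function `b` are
arbitrary and the differences `r(m)` and the set `S` of integers are of one of the following kinds: either (`Long`) the
differences are the elements of an interval of `n ≥ log ^ B' X` integers, and `S`, with at least `log ^ B X` elements, is
a subset of relative density at least `1 / log ^ C X` of an interval of `W ≥ X / (n log ^ C X)` integers; or (`Short`)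
the differences `|r(m)| ≤ X` are arbitrary integers of nearly minimal additive energy of order `p` (by the last
assertion one may take the values `r(m) = f(m)` of any nonconstant polynomial, `n` at least `(X / log ^ C X) ^ (1 / deg f)`)
and `S` has at least `log ^ B X` elements and diameter at most `2 log ^ C X`. For `b = 0`, `S = {1, ..., W}` the patterns
are the arithmetic progressions with `W` terms and the difference `r(m)`; `W` may be as small as `log ^ B X`. Let
`x(q) ≤ X` be arbitrary heights.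

(1) Let `lam(q)` be arbitrary weights with `|lam(q)| ≤ (τ(q) log X) ^ T`. For all but at most `n / log ^ U X` of the
`m ≤ n` the following holds for EVERY integer `a` for which the pattern lies in `[-X, X]`: for all members `c > 0` of the
pattern, with at most `#S / log ^ U X` exceptions, the sum of `lam(q) (ψ(x(q); q, c) - x(q) / φ(q))` over the `q ≤ Q`
coprime to `c` is at most `X / log ^ U X` in absolute value, and so are all the sums with a constant height `y ≤ X`.

(2) Choose for every `m` an arbitrary translation `a(m)` (such that the patterns lie in `[-X, X]`) and for all pairs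
arbitrary coefficients `|g(m, w)| ≤ log ^ T X`. Then the sum over ALL moduli `q ≤ Q` of `τ(q) ^ T` times the ABSOLUTE
VALUE of the sum of `g(m, w) (ψ(x(q); q, c) - x(q) / φ(q))` over the pairs `(m, w)` for which the residue
`c = a(m) + b(w) + r(m) w` is positive and coprime to `q` is at most `n #S X / log ^ U X`. -/
theorem result (T U : ℕ) :
    (∃ B : ℕ, ∀ C p : ℕ, ∃ B' D X₀ : ℕ, ∀ X : ℕ, X₀ ≤ X →
      ∀ Q : ℕ, (Q : ℝ) * Real.exp (D * Real.log (Real.log X) ^ 2) ≤ X →
      ∀ (n : ℕ) (r : ℕ → ℤ) (S : Finset ℤ), (Long B B' C X n r S ∨ Short p B C X n r S) →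
      ∀ (b : ℤ → ℤ) (x : ℕ → ℕ), (∀ q, x q ≤ X) →
      (∀ lam : ℕ → ℝ, (∀ q, |lam q| ≤ (τ q * Real.log X) ^ T) →
        (exceptions U X Q n lam x b r S : ℝ) ≤ n / Real.log X ^ U) ∧
      (∀ a : ℕ → ℤ, (∀ m ∈ Icc 1 n, ∀ w ∈ S, |a m + b w + r m * w| ≤ X) →
        ∀ g : ℕ → ℤ → ℝ, (∀ m w, |g m w| ≤ Real.log X ^ T) →
        ∑ q ∈ Icc 1 Q, τ q ^ T * |total n a b r S g (x q) q| ≤ n * S.card * (X / Real.log X ^ U))) ∧
    (∀ f : Polynomial ℤ, 1 ≤ f.natDegree → ∃ p : ℕ, ∀ C : ℕ, ∃ X₀ : ℕ, ∀ X : ℕ, X₀ ≤ X → ∀ n : ℕ,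
      (X : ℝ) ≤ Real.log X ^ C * (n : ℝ) ^ f.natDegree →
      (Pool.Agent.H373R2.T7.energy p n (fun m => f.eval (m : ℤ)) : ℝ) * X ≤ Real.log X ^ (C + 1) * (n : ℝ) ^ (2 * p)) := by
  classical
  refine ⟨?_, Pool.Agent.V5helper23.KP.poly_energy⟩
  obtain ⟨V, hV⟩ := Pool.Agent.V5helper23.KP.eh_core T U
  refine ⟨2 * V + U + 2, fun C p => ?_⟩
  obtain ⟨c, X1, h1⟩ := Pool.Agent.V5helper23.KP.family_PF p U C V
  obtain ⟨D, X2, h2⟩ := hV c
  obtain ⟨X3, h3⟩ := Pool.Agent.H373R2.T7.ev_L' ((2 : ℕ) : ℝ)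
  refine ⟨4 * V + 2 * U + C + 3, D, X1 + X2 + X3 + 3, fun X hX Q hQ n r S hfam b x hx => ?_⟩
  have hL := h3 X (by omega)
  push_cast at hL
  have hL0 : 0 < Real.log X := by linarith
  rcases Nat.eq_zero_or_pos n with hn | hn
  · subst hn
    refine ⟨fun lam _ => ?_, fun a _ g _ => ?_⟩
    · unfold exceptions
      simp
    · unfold total
      simp
  have hSne : S.Nonempty := by
    rw [← card_pos]
    have h4 : Real.log X ^ (2 * V + U + 2) ≤ S.card := by
      rcases hfam with ⟨_, _, _, _, _, _, g4, _⟩ | ⟨_, _, _, _, g4⟩ <;> exact g4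
    have : (0 : ℝ) < S.card := lt_of_lt_of_le (by positivity) h4
    exact_mod_cast this
  have hPF := h1 X (by omega) n r S hn hfam
  obtain ⟨h5, h6⟩ := h2 X (by omega) Q hQ (Icc 1 n) r S hSne hPF b
  have hcn : ((Icc 1 n).card : ℝ) = n := by rw [Nat.card_Icc, Nat.add_sub_cancel]
  refine ⟨fun lam hlam => ?_, fun a ha g hg => ?_⟩
  · have h7 := h5 lam (fun q => (hlam q).trans (le_of_eq (by unfold τ; rw [mul_pow, mul_comm]))) x hx
      ((Icc 1 n).filter (fun m => ∃ a : ℤ, (∀ w ∈ S, |a + b w + r m * w| ≤ X) ∧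
        (S.card : ℝ) / Real.log X ^ U < (S.filter (fun w => Bad U X Q lam x (a + b w + r m * w))).card))
      (filter_subset _ _) (by
        intro m hm
        rw [mem_filter] at hm
        obtain ⟨_, a, g1, g2⟩ := hm
        refine ⟨a, g1, S.filter (fun w => Bad U X Q lam x (a + b w + r m * w)), filter_subset _ _, g2, ?_⟩
        intro w hw
        rw [mem_filter] at hw
        obtain ⟨_, g3, g4⟩ := hw
        refine ⟨g3, ?_⟩
        rcases g4 with g4 | ⟨y, g5, g6⟩
        · left
          rwa [weighted_eq _ _ _ _ g3] at g4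
        · right
          refine ⟨y, g5, ?_⟩
          rwa [weighted_const _ _ _ _ g3] at g6)
    rw [hcn] at h7
    exact h7
  · have h7 := h6 a ha g hg x hx
    rw [hcn] at h7
    simp only [total_eq]
    exact h7

end Pool.Agent.Results.MP_a78e8f_nt.LineFamilies
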