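import Pool.Agent.V5helper33.EHS.Fin2
import Pool.Agent.V5helper42.EH.P
import Pool.Agent.V5helper6.EHS.BLK
import Pool.Agent.V5helper46.EHS.KAP
import Pool.Agent.V5helper4.EHS.SUM
import Pool.Agent.V5helper4.EHS.PHI
import Pool.Agent.V5helper16.EHS.ConJ
import Pool.Agent.V5helper69.EHS.DEN
import Pool.Agent.V5helper4.EHS.BC2
import Pool.Agent.V5helper38.EHS.EVT2
import Pool.Agent.V5helper29.EHS.PAR2

set_option autoImplicit false

/-!
# The Elliott-Halberstam conjecture in the random sieve model of Banks, Ford and Tao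

For every prime `p` choose a residue class `a_p` modulo `p`, uniformly and independently. The random
set `M = model a` consists of the `n` outside the class `a_p` modulo `p` for every prime `p` with
`∏_{q ≤ p} (1 - 1/q)⁻¹ ≤ log n`; its density near `n` is `1 / log n`, and it has the local obstructions
(and so Maier's irregularities) of the primes. A class `c` modulo `q` is admissible if `c ≢ a_p` modulo `p`
for every prime `p ∣ q` (for the primes, `a_p = 0`, this says that `c` and `q` are coprime).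

There are numbers `D(A)` such that almost surely:

1. for all `A`, for all large `x`, for ALL `q ≤ x exp (-D(A) (log log x)^2)` (so for all `q ≤ x^θ`, `θ < 1`) and ALL
   admissible `c`: `|M(x;q,c) - M(x)/φ(q)| ≤ x / (φ(q) (log x)^A)`;
2. for all `θ < 1` and `A` there is `C` with `S_θ(x) ≤ C x (log x)^(-A)` for all `x > 2`, where `S_θ(x)` is the sum
   over `q ≤ x^θ` of the maximum over the admissible `c` of `|M(x;q,c) - M(x)/φ(q)|`: Q1 for the random set;
3. `M(x) log x / x → 1`, so `M(x;q,c) ~ x / (φ(q) log x)` uniformly in the range of 1.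

Proof. Short blocks `(m, m + h]`, `h = x/(log x)^K`. The elements `n ≡ c` modulo `q` of a block are
`n = c + q k`, and `k` has to avoid the classes `(a_p - c)/q` modulo `p`, which are again independent
and uniform. Brun-Hooley fundamental lemma with arbitrary classes for the primes up to a power of
`log x` (level `b ~ log log x`), exponential moments for the random classes of the larger
primes, Borel-Cantelli over all blocks, moduli and classes. The sum over the blocks telescopes.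
helper33 and helper42, with helper4, helper6, helper16, helper22, helper29, helper32, helper38, helper46, helper53,
helper69.
-/

namespace Pool.Agent.Results.MP_a78e8f_nt.RandomSieveModel

open MeasureTheory ProbabilityTheory Filter
open scoped ENNReal Topology

/-- `∏_{q ≤ n} (1 - 1 / q)⁻¹` over the primes `q` -/
noncomputable def W (n : ℕ) : ℝ := ∏ q ∈ (Finset.Icc 1 n).filter Nat.Prime, (1 - (q : ℝ)⁻¹)⁻¹

/-- the set of the `n` outside the class of `a p` modulo `p` for every prime `p` with `W p ≤ log n` -/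
def model (a : ℕ → ℕ) : Set ℕ := {n | ∀ p : ℕ, p.Prime → W p ≤ Real.log n → ¬ n ≡ a p [MOD p]}

/-- `A(x;q,c)`: the number of the elements `1 ≤ n ≤ x` of `A` with `n ≡ c` modulo `q` -/
noncomputable def count (A : Set ℕ) (x q c : ℕ) : ℕ := {n : ℕ | n ∈ A ∧ 1 ≤ n ∧ n ≤ x ∧ n ≡ c [MOD q]}.ncard

/-- the class `c` modulo `q` is admissible: it is not contained in the class `a p` modulo `p` for a prime `p ∣ q` -/
def Admissible (a : ℕ → ℕ) (q c : ℕ) : Prop := ∀ p : ℕ, p.Prime → p ∣ q → ¬ c ≡ a p [MOD p]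

/-- `|M(x;q,c) - M(x)/φ(q)|` for the random set `M = model a` -/
noncomputable def deviation (a : ℕ → ℕ) (x q c : ℕ) : ℝ :=
  |(count (model a) x q c : ℝ) - (count (model a) x 1 0 : ℝ) / Nat.totient q|

/-- `E(x;q)`: the maximum over the admissible classes -/
noncomputable def E (a : ℕ → ℕ) (x q : ℕ) : ℝ := sSup {r : ℝ | ∃ c : ℕ, Admissible a q c ∧ r = deviation a x q c}

/-- `S_θ(x)`: the sum of `E(x;q)` over `q ≤ x ^ θ` -/
noncomputable def S (a : ℕ → ℕ) (θ : ℝ) (x : ℕ) : ℝ := ∑ q ∈ Finset.Icc 1 ⌊(x : ℝ) ^ θ⌋₊, E a x q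

/-- The Elliott-Halberstam conjecture in the random sieve model. -/
theorem result : ∃ D : ℝ → ℝ, (∀ A, 0 < D A) ∧ ∀ (Ω : Type) [MeasurableSpace Ω] (μ : Measure Ω)
    [IsProbabilityMeasure μ] (a : ℕ → Ω → ℕ), (∀ p, Measurable (a p)) → iIndepFun a μ →
    (∀ p : ℕ, p.Prime → ∀ r < p, μ {ω | a p ω = r} = (p : ℝ≥0∞)⁻¹) → ∀ᵐ ω ∂μ,
    (∀ A : ℝ, ∀ᶠ x : ℕ in atTop, ∀ q c : ℕ, 1 ≤ q →
      (q : ℝ) * Real.exp (D A * (Real.log (Real.log x)) ^ 2) ≤ x → Admissible (fun p => a p ω) q c →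
      deviation (fun p => a p ω) x q c ≤ (x : ℝ) / (Nat.totient q * (Real.log x) ^ A)) ∧
    (∀ θ : ℝ, θ < 1 → ∀ A : ℝ, ∃ C : ℝ, 0 < C ∧ ∀ x : ℕ, 2 < x →
      S (fun p => a p ω) θ x ≤ C * x * (Real.log x) ^ (-A)) ∧
    Tendsto (fun x : ℕ => (count (model (fun p => a p ω)) x 1 0 : ℝ) * Real.log x / x) atTop (𝓝 1) := by
  have hPW2 : Pool.Agent.V5helper33.EHS.S_PW2 := Pool.Agent.V5helper33.EHS.pw2
    (V5helper4.EHS.t_BC2 (Pool.Agent.V5helper38.EHS.t_EVT2 Pool.Agent.V5helper42.EH.t_AP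
      Pool.Agent.V5helper16.EHS.t_CON Pool.Agent.V5helper29.EHS.t_PAR2)) Pool.Agent.V5helper46.EHS.t_KAP
    Pool.Agent.V5helper6.EHS.t_BLK V5helper4.EHS.t_SUM
    (fun Ω _ μ _ a h => Pool.Agent.V5helper42.RS.ae_lt μ a h.meas h.unif)
  obtain ⟨D, hD, h1⟩ := Pool.Agent.V5helper33.EHS.fin2 hPW2
  refine ⟨D, hD, ?_⟩
  intro Ω _ μ _ a hm hi hu
  have hS : Pool.Agent.V5helper33.EHS.Setup μ a := ⟨hm, hi, hu⟩
  filter_upwards [h1 Ω μ a hS, Pool.Agent.V5helper33.EHS.fin (Pool.Agent.V5helper33.EHS.pw_of_pw2 hPW2)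
    V5helper4.EHS.t_PHI Ω μ a hS, Pool.Agent.V5helper69.EHS.t_DEN Ω μ a hS] with ω h2 h3 h4
  refine ⟨h2, h3.2, ?_⟩
  refine h4.congr fun x => ?_
  have h5 := Pool.Agent.V5helper33.EHS.count_eq (fun p => a p ω) x 1 0
  simp only [Nat.mod_one] at h5
  have h6 : (count (model (fun p => a p ω)) x 1 0 : ℝ) =
      (Pool.Agent.V5helper33.EHS.NB (fun p => a p ω) 0 x 1 0 : ℝ) := by exact_mod_cast h5
  rw [h6]

end Pool.Agent.Results.MP_a78e8f_nt.RandomSieveModel
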