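import Pool.Agent.V5helper42.FP.G
import Pool.Agent.V5helper42.FG.G
import Pool.Agent.V5helper42.FG.K6

/-!
# Signed sums in the conjecture of Elliott and Halberstam, for large residues: the exact range (helper42)

For fixed `a ≠ 0` the signed sum over `q ≤ Q` of `π(x; q, a) - π(x) / φ(q)` is small for `Q ≤ x / (log x) ^ B`
(Fouvry; Bombieri, Friedlander and Iwaniec).  For residues `a` which may be as large as `x` the range in which
the bound `x / (log x) ^ A` holds is found here up to a constant `C` against `c` in the exponent: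

1. it holds, for every `A`, for ALL integers `0 < |a| ≤ x`, without exception, for the moduli between
   `√x (log x) ^ K` and `x exp (- C (log₂ x)² / log₃ x)`;
2. it fails for the moduli up to `x exp (- c (log₂ x)² / log₃ x)`: for EVERY large `x`, for at least
   `x exp (- (log x) ^ β)` residues `a`, each fixed for all the moduli, the signed sum (both signs occur) is at
   least `x / (log x) ^ (1 + ε)`;
3. for the moduli about `x / (log x) ^ B` and as many residues it has even the order of magnitude
   `x log log x / log x` of the number of the primes that are counted.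

Friedlander and Granville (1989) showed that the bound of Elliott and Halberstam fails for the moduli
`q ≤ x / (log x) ^ B`, and Friedlander, Granville, Hildebrand and Maier (1991) that it fails, with the maximum
over the residues inside, for the moduli up to `x exp (- c (log log x)² / log log log x)`; Friedlander and
Granville (Relevance of the residue class to the abundance of primes, 1992) treat `0 < |a| < x ^ (1/4 - ε)` with
an error `2 ^ ω(a) Q log (x / Q)` and show that `Q = x / (log x) ^ B` is too large for general `a`.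

Proof of 1.  `|p - a| = q s` with `s ≤ 2 √x / (log x) ^ K`; for fixed `s` the primes are counted by the theorem of
Bombieri and Vinogradov with free heights (`Pool.Agent.N403.QL.t_BVH`, starting files).  The main terms are
sums of `g (y / q)` with `g y = ∑ s / φ (s)` over the `s ≤ y` coprime to `a`; both these sums and
`∑ 1 / φ (q)` over the `q` coprime to `a` are governed by the number of the integers `≤ z` coprime to `a`,
for which a sieve gives an asymptotic formula uniform in `a` for `z ≥ exp (D (log₂ x)² / log₃ x)`.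
Proof of 2 and 3.  Take `a = W l`, where `W` is a product of primes about `(log x) ^ b`, and `l > √x` any prime.
The primes `a + q r` are counted for fixed `r`; the `r` have to be coprime to `W`, and the number of such `r` up
to `y` is irregular (inclusion-exclusion breaks off after `k` steps, `k` of the right parity).
-/

set_option autoImplicit false

namespace Pool.Agent.Results.MP_a78e8f_nt.SignedSumsThreshold

open Finset Filter

/-- `π(x; q, a)`: the number of primes `p ≤ x` with `p ≡ a (mod q)`, for an integer `a` -/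
def piMod (x q : ℕ) (a : ℤ) : ℕ := ((Icc 1 x).filter (fun p : ℕ => p.Prime ∧ (q : ℤ) ∣ (p : ℤ) - a)).card

/-- the signed sum of `π(x; q, a) - π(x) / φ(q)` over the moduli `q ∈ (Q₁, Q₂]` coprime to `a` -/
noncomputable def signedSum (x : ℕ) (a : ℤ) (Q₁ Q₂ : ℕ) : ℝ :=
  ∑ q ∈ (Ioc Q₁ Q₂).filter (fun q => q.Coprime a.natAbs),
    ((piMod x q a : ℝ) - (Nat.primeCounting x : ℝ) / (q.totient : ℝ))

/-- 1. For every `A` there are `C > 0` and `K` such that for all large `x`, for ALL integers `a` with
`0 < |a| ≤ x` and all `Q₁ ≤ Q₂` with `√x (log x) ^ K ≤ Q₁` and `Q₂ ≤ x exp (- C (log log x)² / log log log x)`, the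
signed sum is at most `x / (log x) ^ A` in absolute value.

2. For all `ε, β > 0` there is `c > 0` such that for each sign `σ` and every large `x` there are an interval
`(Q₁, Q₂]` of moduli with `Q₂ ≤ x exp (- c (log log x)² / log log log x)` and a set of at least
`x exp (-(log x) ^ β)` residues `1 ≤ a ≤ Q₁`, for each of which the signed sum is at least
`x / (log x) ^ (1 + ε)` (`σ = 1`), respectively at most `- x / (log x) ^ (1 + ε)` (`σ = -1`).

3. For all `B`, `β > 0` and each sign `σ` there are `B < B₁ < B₂` and `c > 0` such that for every large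
`x` there is an interval `(Q₁, Q₂]` of moduli, with `x / (log x) ^ B₂ ≤ Q₁ ≤ Q₂ ≤ x / (log x) ^ B₁`, and
a set of at least `x exp (-(log x) ^ β)` residues `1 ≤ a ≤ Q₁`, for each of which the signed sum is at least
`c x log log x / log x` (`σ = 1`), respectively at most `-c x log log x / log x` (`σ = -1`). -/
theorem result :
    (∀ A : ℕ, ∃ C : ℝ, 0 < C ∧ ∃ K : ℕ, ∀ᶠ x : ℕ in atTop, ∀ (a : ℤ) (Q₁ Q₂ : ℕ),
      a ≠ 0 → |a| ≤ x → Q₁ ≤ Q₂ → Real.sqrt x * Real.log x ^ K ≤ Q₁ →
      (Q₂ : ℝ) ≤ x * Real.exp (-(C * (Real.log (Real.log x) ^ 2 / Real.log (Real.log (Real.log x))))) →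
      |signedSum x a Q₁ Q₂| ≤ x / Real.log x ^ A) ∧
    (∀ ε β : ℝ, 0 < ε → 0 < β → ∃ c : ℝ, 0 < c ∧ ∀ σ : ℝ, (σ = 1 ∨ σ = -1) →
      ∀ᶠ x : ℕ in atTop, ∃ Q₁ Q₂ : ℕ, Q₁ ≤ Q₂ ∧
        (Q₂ : ℝ) ≤ x * Real.exp (-(c * (Real.log (Real.log x) ^ 2 / Real.log (Real.log (Real.log x))))) ∧
        ∃ S : Finset ℕ, S ⊆ Icc 1 Q₁ ∧ x * Real.exp (-(Real.log x ^ β)) ≤ S.card ∧
          ∀ a ∈ S, x / Real.log x ^ (1 + ε) ≤ σ * signedSum x a Q₁ Q₂) ∧
    (∀ B β : ℝ, 0 < β → ∀ σ : ℝ, (σ = 1 ∨ σ = -1) → ∃ B₁ B₂ c : ℝ, B < B₁ ∧ B₁ < B₂ ∧ 0 < c ∧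
      ∀ᶠ x : ℕ in atTop, ∃ Q₁ Q₂ : ℕ,
        (x : ℝ) / Real.log x ^ B₂ ≤ Q₁ ∧ Q₁ ≤ Q₂ ∧ (Q₂ : ℝ) ≤ x / Real.log x ^ B₁ ∧
        ∃ S : Finset ℕ, S ⊆ Icc 1 Q₁ ∧ x * Real.exp (-(Real.log x ^ β)) ≤ S.card ∧
          ∀ a ∈ S, c * x * Real.log (Real.log x) / Real.log x ≤ σ * signedSum x a Q₁ Q₂) := by
  have hpi : ∀ x q a : ℕ, piMod x q (a : ℤ) = ((Icc 1 x).filter (fun p => p.Prime ∧ p ≡ a [MOD q])).card := by
    intro x q a
    unfold piMod
    congr 1
    apply filter_congr
    intro p _
    rw [and_congr_right_iff]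
    intro _
    constructor
    · intro h
      exact (Nat.modEq_iff_dvd.2 h).symm
    · intro h
      exact Nat.modEq_iff_dvd.1 h.symm
  have hsum : ∀ x a Q₁ Q₂ : ℕ, signedSum x (a : ℤ) Q₁ Q₂ =
      ∑ q ∈ (Ioc Q₁ Q₂).filter (fun q => q.Coprime a),
        ((((Icc 1 x).filter (fun p => p.Prime ∧ p ≡ a [MOD q])).card : ℝ) -
          (Nat.primeCounting x : ℝ) / (q.totient : ℝ)) := by
    intro x a Q₁ Q₂
    unfold signedSum
    rw [Int.natAbs_natCast]
    apply sum_congr rfl
    intro q _
    rw [hpi]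
  simp only [hsum]
  exact ⟨fun A => Pool.Agent.V5helper42.FP.main A,
    fun ε β hε hβ => Pool.Agent.V5helper42.FG.main2 ε β hε hβ,
    fun B β hβ σ hσ => Pool.Agent.V5helper42.FG.main B β hβ σ hσ⟩

end Pool.Agent.Results.MP_a78e8f_nt.SignedSumsThreshold
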