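import Pool.Agent.V5helper64.TF.SmAv

/-!
# The conjecture of Elliott and Halberstam on average over smooth residues

Absolute values over all moduli up to `X ^ (1 - o(1))` and arbitrary heights inside; the residue is averaged, with
arbitrary coefficients, over the smooth integers, or over the integers composed of primes from an arbitrary set.

The proof combines an elementary bound for the exponential sum over the integers composed of primes from a given set
(`Pool.Agent.N469.SQ.exp_alt`: it is large only near few rational numbers with small denominators) with the dispersion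
argument of the starting files (`Pool.Agent.Y885.tl_levels`).

From Mathlib: `ArithmeticFunction.vonMangoldt`: the function `Λ`; `Nat.totient`: Euler's function.
-/

set_option autoImplicit false

namespace Pool.Agent.Results.MP_a78e8f_nt.SmoothResidueAverages

open Finset

/-- `ψ(x; q, a) - x / φ(q)`, where `ψ(x; q, a)` is the sum of `Λ(n)` over the `1 ≤ n ≤ x` with `n ≡ a (mod q)`. -/
noncomputable def E (x q : ℕ) (a : ℤ) : ℝ :=
  ∑ n ∈ (Icc 1 x).filter (fun n : ℕ => (n : ℤ) ≡ a [ZMOD q]), ArithmeticFunction.vonMangoldt n -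
    (x : ℝ) / Nat.totient q

/-- `τ(q)`, the number of the divisors of `q` -/
noncomputable def τ (q : ℕ) : ℝ := q.divisors.card

/-- The integers `1 ≤ v ≤ N` all of whose prime factors belong to `P`. -/
def composedOf (P : Finset ℕ) (N : ℕ) : Finset ℕ := (Icc 1 N).filter fun v => v.primeFactors ⊆ P

/-- The `y`-smooth integers `1 ≤ v ≤ N`: the integers all of whose prime factors are at most `y`. -/
def smooth (y N : ℕ) : Finset ℕ := (Icc 1 N).filter fun v => ∀ p ∈ v.primeFactors, p ≤ y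

/-- The sum of `w(v) (ψ(x; q, a(v)) - x / φ(q))` over the elements `v` of `S` for which the residue `a(v)` is positive and
coprime to `q`. -/
noncomputable def total (S : Finset ℕ) (a : ℕ → ℤ) (w : ℕ → ℝ) (x q : ℕ) : ℝ :=
  ∑ v ∈ S.filter (fun v => 0 < a v ∧ Int.gcd (a v) q = 1), w v * E x q (a v)

theorem gcd_iff (a : ℤ) (ha : 0 < a) (q : ℕ) : Int.gcd a q = 1 ↔ a.toNat.Coprime q := by
  obtain ⟨b, rfl⟩ := Int.eq_ofNat_of_zero_le ha.le
  rw [Int.gcd_natCast_natCast, Int.toNat_natCast, Nat.coprime_iff_gcd_eq_one]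

theorem E_eq (x q : ℕ) (a : ℤ) (ha : 0 < a) : E x q a = Pool.Agent.V5helper64.TF.Ee x q a.toNat := by
  obtain ⟨b, rfl⟩ := Int.eq_ofNat_of_zero_le ha.le
  unfold E Pool.Agent.V5helper64.TF.Ee Pool.Agent.W93.LV.Fu
  rw [Int.toNat_natCast]
  congr 1
  apply sum_congr _ (fun _ _ => rfl)
  ext n
  simp only [mem_filter, Int.natCast_modEq_iff]

theorem total_eq (S : Finset ℕ) (a : ℕ → ℤ) (w : ℕ → ℝ) (x q : ℕ) : total S a w x q =
    ∑ v ∈ S.filter (fun v => 0 < a v ∧ (a v).toNat.Coprime q), w v * Pool.Agent.V5helper64.TF.Ee x q (a v).toNat := by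
  unfold total
  apply sum_congr
  · ext v
    simp only [mem_filter]
    constructor
    · rintro ⟨h0, h1, h2⟩
      exact ⟨h0, h1, (gcd_iff _ h1 q).1 h2⟩
    · rintro ⟨h0, h1, h2⟩
      exact ⟨h0, h1, (gcd_iff _ h1 q).2 h2⟩
  · intro v hv
    rw [E_eq _ _ _ (mem_filter.1 hv).2.1]

/-- Let `A`, `T`, `U`, `W`, `K`, `B`, the integer `κ ≠ 0` and `δ > 0` be fixed. Then there is a constant `D` with the
following property. Let `N` be large, `1 ≤ y ≤ log ^ K N`, let `c` be an arbitrary integer with `|c| ≤ B N`, let `X` be an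
integer with `(B + |κ| + 1) N ≤ X ≤ N log ^ W X`, and let `Q ≤ X / exp (D (log log N) ^ 2)`; thus `Q = X ^ (1 - o(1))`. For
every `v` let `a(v)` be an arbitrary integer with `|a(v) - (c + κ v)| ≤ log ^ A N` and `w(v)` an arbitrary real coefficient
with `|w(v)| ≤ log ^ T N`, and for every modulus `q` let `x(q) ≤ X` be an arbitrary height.

(1) Let `P` be an arbitrary set of primes which are at most `y`, with at least `y ^ (1 / 2 + δ) log N` elements, and let
`S` be the set of the integers `v ≤ N` composed of primes from `P` (there can be as few as about `N ^ (1 / 2 + δ)` of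
them). Then the sum over ALL moduli `q ≤ Q` of `τ(q) ^ T` times the ABSOLUTE VALUE of the sum of
`w(v) (ψ(x(q); q, a(v)) - x(q) / φ(q))`, over the `v` in `S` for which the residue `a(v)` is positive and coprime to `q`,
is at most `#S X / log ^ U N`.

(2) In particular this holds for the set `S` of all the `y`-smooth integers `v ≤ N`, if `y ≥ log ^ (2 + δ) N`. -/
theorem result (A T U W K B : ℕ) (κ : ℤ) (hκ : κ ≠ 0) (δ : ℝ) (hδ : 0 < δ) :
    ∃ D N₀ : ℕ, ∀ N, N₀ ≤ N → ∀ y : ℕ, 1 ≤ y → (y : ℝ) ≤ Real.log N ^ K → ∀ c : ℤ, |c| ≤ B * N →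
      ∀ X : ℕ, (B + κ.natAbs + 1) * N ≤ X → (X : ℝ) ≤ N * Real.log X ^ W →
      ∀ Q : ℕ, (Q : ℝ) * Real.exp (D * Real.log (Real.log N) ^ 2) ≤ X →
      ∀ a : ℕ → ℤ, (∀ v, |((a v - (c + κ * v) : ℤ) : ℝ)| ≤ Real.log N ^ A) →
      ∀ w : ℕ → ℝ, (∀ v, |w v| ≤ Real.log N ^ T) → ∀ x : ℕ → ℕ, (∀ q, x q ≤ X) →
      (∀ P : Finset ℕ, (∀ p ∈ P, p.Prime ∧ p ≤ y) → (y : ℝ) ^ (1 / 2 + δ) * Real.log N ≤ P.card →
        ∑ q ∈ Icc 1 Q, τ q ^ T * |total (composedOf P N) a w (x q) q| ≤
          (composedOf P N).card * (X / Real.log N ^ U)) ∧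
      (Real.log N ^ (2 + δ) ≤ y →
        ∑ q ∈ Icc 1 Q, τ q ^ T * |total (smooth y N) a w (x q) q| ≤ (smooth y N).card * (X / Real.log N ^ U)) := by
  obtain ⟨δ', N1, hδ', h1⟩ := Pool.Agent.N469.SQ.PR_cond δ hδ
  obtain ⟨D2, N2, h2⟩ := Pool.Agent.V5helper64.TF.sm_av κ hκ K B A T U W δ hδ
  obtain ⟨D3, N3, h3⟩ := Pool.Agent.V5helper64.TF.sm_av κ hκ K B A T U W δ' hδ'
  refine ⟨D2 + D3, N1 + N2 + N3 + 1, fun N hN y hy hy' c hc X hX1 hX2 Q hQ a ha w hw x hx => ?_⟩
  have hD : ∀ D' : ℕ, D' ≤ D2 + D3 → (Q : ℝ) * Real.exp (D' * Real.log (Real.log N) ^ 2) ≤ X := by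
    intro D' hD'
    refine le_trans ?_ hQ
    apply mul_le_mul_of_nonneg_left _ (Nat.cast_nonneg _)
    apply Real.exp_le_exp.2
    apply mul_le_mul_of_nonneg_right _ (sq_nonneg _)
    exact_mod_cast hD'
  refine ⟨fun P hP hcard => ?_, fun hyl => ?_⟩
  · have h4 := h2 N (by omega) P y ⟨hP, hy, hy', hcard⟩ c X Q hc hX1 hX2 (hD D2 (by omega)) w hw x hx a ha
    simp only [total_eq]
    exact h4
  · have h4 := h3 N (by omega) (Pool.Agent.N469.SQ.PR y) y ⟨fun p hp => Pool.Agent.N469.SQ.mem_PR.1 hp, hy, hy',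
      (h1 N (by omega) y hyl).2⟩ c X Q hc hX1 hX2 (hD D3 (by omega)) w hw x hx a ha
    have e : smooth y N = Pool.Agent.N469.SM.SS (Pool.Agent.N469.SQ.PR y) N := Pool.Agent.N469.TL.smooth_eq y N
    simp only [total_eq, e]
    exact h4

end Pool.Agent.Results.MP_a78e8f_nt.SmoothResidueAverages
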